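import Pool.Agent.Lib.MP_75b31c_lc.D40.H86.Common

set_option autoImplicit false

/-!
# CLLI2: lifting for I, if the play leaves `C`
-/

namespace Pool.Agent.Lib.MP_75b31c_lc.D40.H86

open Pool.Agent.Lib.MP_75b31c_lc.D40

theorem phiI_low {T : GT} {k : ℕ} {C : Set T.Q} {σ : (clT T k C).Q → (clT T k C).Q} {q : T.Q}
    (h : T.len q ≤ 2 * k) : phiI T k C σ q = (mv T k C σ ⟨q, ∅, Opt.none⟩).q := by
  unfold phiI
  rw [if_pos h]

theorem phiI_out {T : GT} {k : ℕ} {C : Set T.Q} {σ : (clT T k C).Q → (clT T k C).Q} {q xK : T.Q}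
    (h : ¬ T.len q ≤ 2 * k) (hxK : T.res (2 * k) q = xK)
    (ha : T.res (2 * k + 1) q = (mv T k C σ ⟨xK, ∅, Opt.none⟩).q) (he : T.len q % 2 = 0)
    (hq : q ∉ TX T C) :
    phiI T k C σ q = (mv T k C σ ⟨q, (mv T k C σ ⟨xK, ∅, Opt.none⟩).A,
      Opt.u (T.res (sInf {n | 2 * k + 2 ≤ n ∧ n % 2 = 0 ∧ T.res n q ∉ TX T C}) q)⟩).q := by
  subst hxK
  unfold phiI
  dsimp only
  rw [if_neg h, if_neg (by rw [not_not]; exact ⟨ha, he⟩), if_pos hq]

theorem phiI_hit {T : GT} {k : ℕ} {C : Set T.Q} {σ : (clT T k C).Q → (clT T k C).Q} {q xK : T.Q}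
    (h : ¬ T.len q ≤ 2 * k) (hxK : T.res (2 * k) q = xK)
    (ha : T.res (2 * k + 1) q = (mv T k C σ ⟨xK, ∅, Opt.none⟩).q) (he : T.len q % 2 = 0)
    (hq : q ∈ TX T C)
    (hH : Hit T (2 * k + 2) false (mv T k C σ ⟨xK, ∅, Opt.none⟩).A (TX T C)ᶜ q) :
    phiI T k C σ q = rho T false (mv T k C σ ⟨xK, ∅, Opt.none⟩).A (TX T C)ᶜ
      (hitPt T (2 * k + 2) false (mv T k C σ ⟨xK, ∅, Opt.none⟩).A (TX T C)ᶜ q) q := by
  subst hxK
  unfold phiI
  dsimp only
  rw [if_neg h, if_neg (by rw [not_not]; exact ⟨ha, he⟩), if_neg (by rw [not_not]; exact hq),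
    if_pos hH]

theorem phiI_in {T : GT} {k : ℕ} {C : Set T.Q} {σ : (clT T k C).Q → (clT T k C).Q} {q xK : T.Q}
    (h : ¬ T.len q ≤ 2 * k) (hxK : T.res (2 * k) q = xK)
    (ha : T.res (2 * k + 1) q = (mv T k C σ ⟨xK, ∅, Opt.none⟩).q) (he : T.len q % 2 = 0)
    (hq : q ∈ TX T C)
    (hH : ¬ Hit T (2 * k + 2) false (mv T k C σ ⟨xK, ∅, Opt.none⟩).A (TX T C)ᶜ q) :
    phiI T k C σ q = (mv T k C σ ⟨q, (mv T k C σ ⟨xK, ∅, Opt.none⟩).A,
      Opt.s (avoid T (2 * k + 2) false (mv T k C σ ⟨xK, ∅, Opt.none⟩).A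
        (mv T k C σ ⟨xK, ∅, Opt.none⟩).A (TX T C)ᶜ (T.res (2 * k + 2) q))⟩).q := by
  subst hxK
  unfold phiI
  dsimp only
  rw [if_neg h, if_neg (by rw [not_not]; exact ⟨ha, he⟩), if_neg (by rw [not_not]; exact hq),
    if_neg hH]

theorem clli2 : CLLI2_S := by
  intro R T k C σ hσ x hx hc hX
  have hlen : ∀ n, T.len (x n) = n := fun n => (hx n).1
  -- the first even position outside
  have hmono : ∀ m n, m ≤ n → x n ∈ TX T C → x m ∈ TX T C := by
    intro m n hmn h
    rw [← br_res hx m n hmn]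
    exact TX_res h m
  obtain ⟨n0, hn0, ⟨hn0e, hn0X⟩, hmin⟩ := exists_min (m := 2 * k + 2)
    (P := fun n => n % 2 = 0 ∧ x n ∉ TX T C) (by
      obtain ⟨n, hn⟩ := hX
      exact ⟨2 * (k + 1 + n), by omega, by omega, fun h => hn (hmono _ _ (by omega) h)⟩)
  have hin : ∀ n, 2 * k + 2 ≤ n → n % 2 = 0 → n < n0 → x n ∈ TX T C := by
    intro n h1 h2 h3
    by_contra h4
    exact hmin n h1 h3 ⟨h2, h4⟩
  have hout : ∀ n, n0 ≤ n → x n ∉ TX T C := fun n hn h => hn0X (hmono _ _ hn h)
  have hv0 : Valid T (2 * k) C ⟨x (2 * k), ∅, Opt.none⟩ := valid_low _ (by rw [hlen])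
  obtain ⟨_, m2, m3, _, _⟩ := mv_spec hσ _ hv0
  have m3' := m3.1
  simp only [hlen] at m3'
  have hx1 : x (2 * k + 1) = (mv T k C σ ⟨x (2 * k), ∅, Opt.none⟩).q := by
    rw [hc (2 * k) (by unfold Turn; simp), phiI_low (by rw [hlen])]
  obtain ⟨A, hAdef⟩ : ∃ A, A = (mv T k C σ ⟨x (2 * k), ∅, Opt.none⟩).A := ⟨_, rfl⟩
  have hA : QI T A (x (2 * k + 1)) := by
    have h1 := m2.qi (by omega)
    rw [T.res_self _ _ (by omega), ← hAdef, ← hx1] at h1
    exact h1
  have hx2A : x (2 * k + 2) ∈ A :=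
    hA.odd _ hA.mem (by rw [hlen]; omega) _ (br_child hx (2 * k + 1))
  have hres1 : ∀ n, 2 * k + 1 ≤ n →
      T.res (2 * k + 1) (x n) = (mv T k C σ ⟨x (2 * k), ∅, Opt.none⟩).q := by
    intro n hn
    rw [br_res hx _ _ hn, hx1]
  -- up to `n0` the play is in `A`
  have hxA : ∀ d, 2 * k + 1 + d ≤ n0 → x (2 * k + 1 + d) ∈ A := by
    intro d
    induction d with
    | zero => exact fun _ => hA.mem
    | succ d ih =>
      intro hd
      have ihd := ih (by omega)
      obtain ⟨n, hn⟩ : ∃ n, n = 2 * k + 1 + d := ⟨_, rfl⟩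
      change x (2 * k + 1 + d + 1) ∈ A
      rw [← hn] at ihd ⊢
      rcases Nat.mod_two_eq_zero_or_one n with h | h
      · have hnX : x n ∈ TX T C := hin n (by omega) h (by omega)
        by_cases hH : Hit T (2 * k + 2) false A (TX T C)ᶜ (x n)
        · obtain ⟨i, h1, h2, h3⟩ := (hit_br hx).1 hH
          obtain ⟨n1, h4, h5, h6⟩ := exists_min (P := fun n => Force T false A (TX T C)ᶜ (x n))
            ⟨i, h1, h3⟩
          have h7 : n1 ≤ n := by
            by_contra h8
            exact h6 i h1 (by omega) h3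
          obtain ⟨N, h8, h9, h10⟩ := reach_use R hx h4 h5 h6 (fun n' hn' ht hG => by
            have hX' : x n' ∈ TX T C := by
              by_contra h11
              exact hG n' hn' le_rfl h11
            have hHit : Hit T (2 * k + 2) false (mv T k C σ ⟨x (2 * k), ∅, Opt.none⟩).A
                (TX T C)ᶜ (x n') := by
              rw [← hAdef]
              exact (hit_br hx).2 ⟨n1, h4, hn', h5⟩
            rw [hc n' ht, phiI_hit (by rw [hlen]; omega) (br_res hx _ _ (by omega))
              (hres1 _ (by omega)) (by rw [hlen]; exact ht) hX' hHit, ← hAdef])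
          have h11 : n < N := by
            by_contra h12
            exact h9 (hmono _ _ (not_lt.1 h12) hnX)
          exact h10 n h7 h11 h
        · have hH' := hH
          rw [hAdef] at hH'
          have hstep := hc n h
          rw [phiI_in (by rw [hlen]; omega) (br_res hx _ _ (by omega)) (hres1 _ (by omega))
            (by rw [hlen]; exact h) hnX hH', br_res hx _ _ (by omega), ← hAdef] at hstep
          have hF : ¬ Force T false A (TX T C)ᶜ (x (2 * k + 2)) := fun hF =>
            hH ((hit_br hx).2 ⟨2 * k + 2, le_rfl, by omega, hF⟩)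
          have hQ := avoid_qii (C := C) hA (hlen _) hx2A (hlen _) hF
          have hv : Valid T (2 * k) C ⟨x n, A, Opt.s (avoid T (2 * k + 2) false A A (TX T C)ᶜ
              (x (2 * k + 2)))⟩ := by
            refine ⟨fun h' => ?_, fun h' => ?_, fun _ => ?_, fun _ => Or.inr ⟨_, rfl, ?_, ?_⟩⟩
            · simp only [hlen] at h'
              omega
            · simp only [hlen] at h'
              omega
            · simp only
              rw [br_res hx _ _ (by omega)]
              exact hA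
            · simp only
              rw [br_res hx _ _ (by omega)]
              exact hQ
            · exact ⟨ihd, by rw [hlen]; omega, br_res hx _ _ (by omega), hH⟩
          obtain ⟨_, n2, n3, n4, n5⟩ := mv_spec hσ _ hv
          have n3' := n3.1
          simp only [hlen] at n3' n4 n5
          have n5' := n5 (by omega)
          rw [hstep]
          rcases n2.opt (by omega) with ⟨p, h1, _⟩ | ⟨B', h1, _, h3⟩
          · rw [n5'] at h1
            exact absurd h1 (by simp)
          · rw [n5'] at h1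
            injection h1 with h1
            rw [← h1] at h3
            exact h3.1
      · exact hA.odd _ ihd (by rw [hlen]; exact h) _ (br_child hx n)
  have hpA : x n0 ∈ A := by
    obtain ⟨d, hd⟩ := Nat.exists_eq_add_of_le (show 2 * k + 1 ≤ n0 by omega)
    rw [hd]
    exact hxA d (by omega)
  have hval : ∀ n, Valid T (2 * k) C (pn k x A (Opt.u (x n0)) n) := by
    refine pn_valid hx hA fun n hn => Or.inl ⟨x n0, rfl, hpA, hn0X, by rw [hlen]; exact hn0e,
      by rw [hlen]; exact hn0, ?_⟩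
    unfold Compar
    rw [hlen, hlen]
    rcases le_total n n0 with h | h
    · exact Or.inl (br_res hx _ _ h)
    · exact Or.inr (br_res hx _ _ h)
  refine lift_of hσ hx (A := A) (o := Opt.u (x n0)) hval false ?_ ?_ ?_
  · intro n ht
    have hte : n % 2 = 0 := ht
    rcases Nat.lt_or_ge (2 * k) n with h1 | h1
    · have hvn := hval n
      rw [pn_high x A _ n (by omega)] at hvn ⊢
      rcases Nat.lt_or_ge n n0 with h2 | h2
      · obtain ⟨_, n2, n3, n4, n5⟩ := mv_spec hσ _ hvn
        have n3' := n3.1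
        simp only [hlen] at n3' n4 n5
        have n5' := n5 (by omega)
        rcases n2.opt (by omega) with ⟨p, h3, _, _, _, _, h8⟩ | ⟨B', h3, _⟩
        · rw [n5'] at h3
          injection h3 with h3
          rw [← h3] at h8
          unfold Compar at h8
          rw [n3', hlen] at h8
          rcases h8 with h8 | h8
          · rw [← h8, br_res hx _ _ (by omega)]
          · have h9 := congrArg T.len h8
            rw [T.len_res, n3', hlen] at h9
            omega
        · rw [n5'] at h3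
          exact absurd h3 (by simp)
      · have hs : sInf {m | 2 * k + 2 ≤ m ∧ m % 2 = 0 ∧ T.res m (x n) ∉ TX T C} = n0 := by
          have hmem : n0 ∈ {m | 2 * k + 2 ≤ m ∧ m % 2 = 0 ∧ T.res m (x n) ∉ TX T C} :=
            ⟨hn0, hn0e, by rw [br_res hx _ _ h2]; exact hn0X⟩
          apply le_antisymm (Nat.sInf_le hmem)
          by_contra h3
          rw [not_le] at h3
          obtain ⟨h4, h5, h6⟩ := Nat.sInf_mem ⟨n0, hmem⟩
          rw [br_res hx _ _ (by omega)] at h6
          exact hmin _ h4 h3 ⟨h5, h6⟩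
        rw [hc n ht, phiI_out (by rw [hlen]; omega) (br_res hx _ _ (by omega)) (hres1 _ (by omega))
          (by rw [hlen]; exact hte) (hout n h2), hs, br_res hx _ _ h2, ← hAdef]
    · rw [pn_low x A _ n h1, hc n ht, phiI_low (by rw [hlen]; exact h1)]
  · intro _
    rw [pn_low x A _ _ le_rfl, ← hAdef]
  · intro ht
    unfold Turn at ht
    simp at ht

end Pool.Agent.Lib.MP_75b31c_lc.D40.H86
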