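import Pool.Agent.Lib.MP_75b31c_lc.D40.H86.Common

set_option autoImplicit false

/-!
# CLLII2: lifting for II, if no position of the play is in `U`
-/

namespace Pool.Agent.Lib.MP_75b31c_lc.D40.H86

open Pool.Agent.Lib.MP_75b31c_lc.D40

theorem phiII_low {T : GT} {k : ℕ} {C : Set T.Q} {σ : (clT T k C).Q → (clT T k C).Q} {q : T.Q}
    (h : T.len q ≤ 2 * k) : phiII T k C σ q = (mv T k C σ ⟨q, ∅, Opt.none⟩).q := by
  unfold phiII
  rw [if_pos h]

theorem phiII_hit {T : GT} {k : ℕ} {C : Set T.Q} {σ : (clT T k C).Q → (clT T k C).Q} {q x' : T.Q}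
    (h : ¬ T.len q ≤ 2 * k) (hx' : T.res (2 * k + 1) q = x')
    (hU : ∀ n, n ≤ T.len q → T.res n q ∉ US T k C σ x')
    (hH : Hit T (2 * k + 1) true Set.univ (US T k C σ x') q) :
    phiII T k C σ q = rho T true Set.univ (US T k C σ x')
      (hitPt T (2 * k + 1) true Set.univ (US T k C σ x') q) q := by
  subst hx'
  unfold phiII
  dsimp only
  rw [if_neg h, if_neg (fun ⟨n, h1, h2⟩ => hU n h1 h2), if_pos hH]

theorem phiII_mid {T : GT} {k : ℕ} {C : Set T.Q} {σ : (clT T k C).Q → (clT T k C).Q} {q x' : T.Q}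
    (h : ¬ T.len q ≤ 2 * k) (hx' : T.res (2 * k + 1) q = x')
    (hU : ∀ n, n ≤ T.len q → T.res n q ∉ US T k C σ x')
    (hH : ¬ Hit T (2 * k + 1) true Set.univ (US T k C σ x') q) (hl : T.len q = 2 * k + 1) :
    phiII T k C σ q = (mv T k C σ ⟨q, avoid T (2 * k + 1) true Set.univ Set.univ
      (US T k C σ x') x', Opt.none⟩).q := by
  subst hx'
  unfold phiII
  dsimp only
  rw [if_neg h, if_neg (fun ⟨n, h1, h2⟩ => hU n h1 h2), if_neg hH, if_pos hl]

theorem phiII_high {T : GT} {k : ℕ} {C : Set T.Q} {σ : (clT T k C).Q → (clT T k C).Q} {q x' : T.Q}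
    (h : ¬ T.len q ≤ 2 * k) (hx' : T.res (2 * k + 1) q = x')
    (hU : ∀ n, n ≤ T.len q → T.res n q ∉ US T k C σ x')
    (hH : ¬ Hit T (2 * k + 1) true Set.univ (US T k C σ x') q) (hl : ¬ T.len q = 2 * k + 1) :
    phiII T k C σ q = (mv T k C σ ⟨q, avoid T (2 * k + 1) true Set.univ Set.univ
      (US T k C σ x') x', (mv T k C σ ⟨x', avoid T (2 * k + 1) true Set.univ Set.univ
      (US T k C σ x') x', Opt.none⟩).o⟩).q := by
  subst hx'
  unfold phiII
  dsimp only
  rw [if_neg h, if_neg (fun ⟨n, h1, h2⟩ => hU n h1 h2), if_neg hH, if_neg hl]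

theorem cllii2 : CLLII2_S := by
  intro R T k C σ hσ x hx hc hU
  have hlen : ∀ n, T.len (x n) = n := fun n => (hx n).1
  -- no position is in the forcing set
  have hU' : ∀ n, ∀ i, i ≤ T.len (x n) → T.res i (x n) ∉ US T k C σ (x (2 * k + 1)) := by
    intro n i hi
    rw [hlen] at hi
    rw [br_res hx i n hi]
    exact hU i
  have hF : ∀ n, 2 * k + 1 ≤ n → ¬ Force T true Set.univ (US T k C σ (x (2 * k + 1))) (x n) := by
    intro n hn hFn
    obtain ⟨n0, h1, h2, h3⟩ := exists_min (P := fun n => Force T true Set.univ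
      (US T k C σ (x (2 * k + 1))) (x n)) ⟨n, hn, hFn⟩
    obtain ⟨m, _, h5, _⟩ := reach_use R hx h1 h2 h3 (fun i hi ht _ => by
      rw [hc i ht]
      refine phiII_hit (by rw [hlen]; omega) (br_res hx _ _ (by omega)) (hU' i) ?_
      exact (hit_br hx).2 ⟨n0, h1, hi, h2⟩)
    exact hU m h5
  have hH : ∀ n, ¬ Hit T (2 * k + 1) true Set.univ (US T k C σ (x (2 * k + 1))) (x n) := by
    intro n h
    obtain ⟨i, h1, _, h3⟩ := (hit_br hx).1 h
    exact hF i h1 h3
  obtain ⟨A, hAdef⟩ : ∃ A, A = avoid T (2 * k + 1) true Set.univ Set.univ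
    (US T k C σ (x (2 * k + 1))) (x (2 * k + 1)) := ⟨_, rfl⟩
  have hA : QI T A (x (2 * k + 1)) := by
    rw [hAdef]
    exact avoid_qi (hlen _) (hF _ le_rfl)
  have hxA : ∀ n, 2 * k + 1 ≤ n → x n ∈ A := by
    intro n hn
    rw [hAdef]
    exact ⟨trivial, by rw [hlen]; exact hn, br_res hx _ _ hn, hH n⟩
  have hv1 : Valid T (2 * k) C ⟨x (2 * k + 1), A, Opt.none⟩ := valid_mid A _ (hlen _) hA
  obtain ⟨_, m2, m3, m4, _⟩ := mv_spec hσ _ hv1
  have m3' := m3.1
  simp only [hlen] at m3' m4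
  have m4' := m4 (by omega)
  have hx2 : x (2 * k + 2) = (mv T k C σ ⟨x (2 * k + 1), A, Opt.none⟩).q := by
    have h1 := hc (2 * k + 1) (by unfold Turn; simp)
    rw [phiII_mid (by rw [hlen]; omega) (br_res hx _ _ le_rfl) (hU' _) (hH _) (hlen _), ← hAdef] at h1
    exact h1
  -- the third component is `s B`
  obtain ⟨B, hB1, hB2, hB3⟩ : ∃ B, (mv T k C σ ⟨x (2 * k + 1), A, Opt.none⟩).o = Opt.s B ∧
      QII T C A B (x (2 * k + 2)) ∧ x (2 * k + 2) ∈ B := by
    rcases m2.opt (by omega) with ⟨p, h1, h2, _, _, _, _⟩ | ⟨B, h1, h2, h3⟩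
    · exfalso
      rw [m4'] at h2
      have hpU : p ∈ US T k C σ (x (2 * k + 1)) := ⟨A, hv1, h1⟩
      rw [hAdef] at h2
      exact h2.2.2.2 (hit_self h2.2.1 (Force.base p hpU))
    · refine ⟨B, h1, ?_, ?_⟩
      · rw [m4', T.res_self _ _ (by omega), ← hx2] at h2
        exact h2
      · rw [← hx2] at h3
        exact h3
  have hodd : ∀ n, 2 * k + 2 ≤ n → Turn true n → x (n + 1) = (mv T k C σ ⟨x n, A, Opt.s B⟩).q := by
    intro n hn ht
    rw [hc n ht, phiII_high (by rw [hlen]; omega) (br_res hx _ _ (by omega)) (hU' _) (hH _)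
      (by rw [hlen]; omega), ← hAdef, hB1]
  -- the play stays in `B`
  have hvh : ∀ n, 2 * k + 2 ≤ n → x n ∈ B → Valid T (2 * k) C ⟨x n, A, Opt.s B⟩ := by
    intro n hn hnB
    refine ⟨fun h' => ?_, fun h' => ?_, fun _ => ?_, fun _ => Or.inr ⟨B, rfl, ?_, hnB⟩⟩
    · simp only [hlen] at h'
      omega
    · simp only [hlen] at h'
      omega
    · simp only
      rw [br_res hx _ _ (by omega)]
      exact hA
    · simp only
      rw [br_res hx _ _ (by omega)]
      exact hB2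
  have hxB : ∀ d, x (2 * k + 2 + d) ∈ B := by
    intro d
    induction d with
    | zero => exact hB3
    | succ d ih =>
      rcases Nat.mod_two_eq_zero_or_one (2 * k + 2 + d) with h | h
      · exact hB2.even _ ih (by rw [hlen]; exact h) _ (br_child hx _) (hxA _ (by omega))
      · obtain ⟨_, n2, n3, n4, n5⟩ := mv_spec hσ _ (hvh _ (by omega) ih)
        have n3' := n3.1
        simp only [hlen] at n3' n4 n5
        have n5' := n5 (by omega)
        change x (2 * k + 2 + d + 1) ∈ B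
        rw [hodd _ (by omega) h]
        rcases n2.opt (by omega) with ⟨p, h1, _⟩ | ⟨B', h1, _, h3⟩
        · rw [n5'] at h1
          exact absurd h1 (by simp)
        · rw [n5'] at h1
          injection h1 with h1
          subst h1
          exact h3
  refine lift_of hσ hx (A := A) (o := Opt.s B) (pn_valid hx hA fun n hn => Or.inr ⟨B, rfl, hB2, ?_⟩)
    true ?_ ?_ ?_
  · obtain ⟨d, rfl⟩ := Nat.exists_eq_add_of_le hn
    exact hxB d
  · intro n ht
    rcases Nat.lt_or_ge (2 * k) n with h1 | h1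
    · rcases Nat.eq_or_lt_of_le h1 with h2 | h2
      · obtain rfl : n = 2 * k + 1 := by omega
        rw [pn_mid]
        exact hx2
      · rw [pn_high x A _ n (by omega)]
        exact hodd n (by omega) ht
    · rw [pn_low x A _ n h1, hc n ht, phiII_low (by rw [hlen]; exact h1)]
  · intro ht
    unfold Turn at ht
    simp at ht
  · intro _
    rw [pn_mid]
    exact hB1

end Pool.Agent.Lib.MP_75b31c_lc.D40.H86
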