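import Pool.Agent.Lib.MP_75b31c_lc.D40.Iface

set_option autoImplicit false

/-!
# Common lemmas for the lifting property of the covering of a closed set
-/

namespace Pool.Agent.Lib.MP_75b31c_lc.D40.H86

open Pool.Agent.Lib.MP_75b31c_lc.D40

theorem br_res {T : GT} {x : ℕ → T.Q} (hx : Branch T x) (m n : ℕ) (h : m ≤ n) :
    T.res m (x n) = x m := by
  induction n with
  | zero =>
    obtain rfl : m = 0 := by omega
    exact T.res_self _ _ (by rw [(hx 0).1])
  | succ n ih =>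
    rcases Nat.eq_or_lt_of_le h with rfl | h'
    · exact T.res_self _ _ (by rw [(hx _).1])
    · have h2 : T.res m (T.res n (x (n + 1))) = T.res m (x (n + 1)) := by
        rw [T.res_res, min_eq_left (by omega)]
      rw [← h2, (hx n).2]
      exact ih (by omega)

theorem br_child {T : GT} {x : ℕ → T.Q} (hx : Branch T x) (n : ℕ) : Child T (x n) (x (n + 1)) := by
  refine ⟨by rw [(hx _).1, (hx _).1], ?_⟩
  rw [(hx n).1]
  exact (hx n).2

theorem mv_spec {T : GT} {k : ℕ} {C : Set T.Q} {σ : (clT T k C).Q → (clT T k C).Q}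
    (hσ : IsStrat (clT T k C) σ) (s : Pos T) (hs : Valid T (2 * k) C s) :
    mv T k C σ s = (σ ⟨s, hs⟩).1 ∧ Valid T (2 * k) C (mv T k C σ s) ∧
      Child T s.q (mv T k C σ s).q ∧ (2 * k < T.len s.q → (mv T k C σ s).A = s.A) ∧
      (2 * k + 1 < T.len s.q → (mv T k C σ s).o = s.o) := by
  have e : mv T k C σ s = (σ ⟨s, hs⟩).1 := by
    unfold mv
    rw [dif_pos hs]
  rw [e]
  obtain ⟨h1, h2⟩ := hσ ⟨s, hs⟩
  have h1' : T.len (σ ⟨s, hs⟩).1.q = T.len s.q + 1 := h1
  have h2' : cut T (2 * k) (T.len s.q) (σ ⟨s, hs⟩).1 = s := congrArg Subtype.val h2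
  have hq : T.res (T.len s.q) (σ ⟨s, hs⟩).1.q = s.q := congrArg Pos.q h2'
  refine ⟨rfl, (σ ⟨s, hs⟩).2, ⟨h1', hq⟩, fun h3 => ?_, fun h3 => ?_⟩
  · have h4 := congrArg Pos.A h2'
    unfold cut at h4
    simp only at h4
    rw [if_neg (by omega)] at h4
    exact h4
  · have h4 := congrArg Pos.o h2'
    unfold cut at h4
    simp only at h4
    rw [if_neg (by omega)] at h4
    exact h4

/-- The positions of the lifted play. -/
noncomputable def pn {T : GT} (k : ℕ) (x : ℕ → T.Q) (A : Set T.Q) (o : Opt T.Q) (n : ℕ) : Pos T where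
  q := x n
  A := if n ≤ 2 * k then ∅ else A
  o := if n ≤ 2 * k + 1 then Opt.none else o

theorem valid_low {T : GT} {k : ℕ} {C : Set T.Q} (q : T.Q) (h : T.len q ≤ 2 * k) :
    Valid T (2 * k) C ⟨q, ∅, Opt.none⟩ :=
  ⟨fun _ => rfl, fun _ => rfl, fun h' => by simp only at h'; omega, fun h' => by
    simp only at h'; omega⟩

theorem valid_mid {T : GT} {k : ℕ} {C : Set T.Q} (A : Set T.Q) (q : T.Q) (h : T.len q = 2 * k + 1)
    (hA : QI T A q) : Valid T (2 * k) C ⟨q, A, Opt.none⟩ := by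
  refine ⟨fun h' => ?_, fun _ => rfl, fun _ => ?_, fun h' => ?_⟩
  · simp only at h'
    omega
  · simp only
    rw [T.res_self _ _ (by omega)]
    exact hA
  · simp only at h'
    omega

theorem pn_low {T : GT} {k : ℕ} (x : ℕ → T.Q) (A : Set T.Q) (o : Opt T.Q) (n : ℕ) (h : n ≤ 2 * k) :
    pn k x A o n = ⟨x n, ∅, Opt.none⟩ := by
  unfold pn
  rw [if_pos h, if_pos (by omega)]

theorem pn_mid {T : GT} {k : ℕ} (x : ℕ → T.Q) (A : Set T.Q) (o : Opt T.Q) :
    pn k x A o (2 * k + 1) = ⟨x (2 * k + 1), A, Opt.none⟩ := by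
  unfold pn
  rw [if_neg (by omega), if_pos (by omega)]

theorem pn_high {T : GT} {k : ℕ} (x : ℕ → T.Q) (A : Set T.Q) (o : Opt T.Q) (n : ℕ)
    (h : 2 * k + 2 ≤ n) : pn k x A o n = ⟨x n, A, o⟩ := by
  unfold pn
  rw [if_neg (by omega), if_neg (by omega)]

theorem pn_valid {T : GT} {k : ℕ} {C : Set T.Q} {x : ℕ → T.Q} (hx : Branch T x) {A : Set T.Q}
    {o : Opt T.Q} (hA : QI T A (x (2 * k + 1)))
    (ho : ∀ n, 2 * k + 2 ≤ n →
      (∃ p, o = Opt.u p ∧ p ∈ A ∧ p ∉ TX T C ∧ T.len p % 2 = 0 ∧ 2 * k + 2 ≤ T.len p ∧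
        Compar T p (x n)) ∨
      (∃ B, o = Opt.s B ∧ QII T C A B (x (2 * k + 2)) ∧ x n ∈ B)) (n : ℕ) :
    Valid T (2 * k) C (pn k x A o n) := by
  rcases Nat.lt_or_ge (2 * k) n with h1 | h1
  · rcases Nat.eq_or_lt_of_le h1 with h2 | h2
    · obtain rfl : n = 2 * k + 1 := by omega
      rw [pn_mid]
      exact valid_mid A _ (hx _).1 hA
    · rw [pn_high x A o n (by omega)]
      refine ⟨fun h' => ?_, fun h' => ?_, fun _ => ?_, fun _ => ?_⟩
      · simp only [(hx n).1] at h'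
        omega
      · simp only [(hx n).1] at h'
        omega
      · simp only
        rw [br_res hx _ _ (by omega)]
        exact hA
      · simp only
        rw [br_res hx _ _ (by omega)]
        exact ho n (by omega)
  · rw [pn_low x A o n h1]
    exact valid_low _ (by rw [(hx n).1]; exact h1)

theorem lift_of {T : GT} {k : ℕ} {C : Set T.Q} {σ : (clT T k C).Q → (clT T k C).Q}
    (hσ : IsStrat (clT T k C) σ) {x : ℕ → T.Q} (hx : Branch T x) {A : Set T.Q} {o : Opt T.Q}
    (hv : ∀ n, Valid T (2 * k) C (pn k x A o n)) (j : Bool)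
    (hq : ∀ n, Turn j n → x (n + 1) = (mv T k C σ (pn k x A o n)).q)
    (hA : Turn j (2 * k) → (mv T k C σ (pn k x A o (2 * k))).A = A)
    (ho : Turn j (2 * k + 1) → (mv T k C σ (pn k x A o (2 * k + 1))).o = o) :
    ∃ y, Branch (clT T k C) y ∧ Cons (clT T k C) j σ y ∧ ∀ n, (clP T k C).f (y n) = x n := by
  refine ⟨fun n => ⟨pn k x A o n, hv n⟩, fun n => ⟨(hx n).1, ?_⟩, fun n hn => ?_, fun n => rfl⟩
  · apply Subtype.ext
    change cut T (2 * k) n (pn k x A o (n + 1)) = pn k x A o n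
    have hl : T.len (x (n + 1)) = n + 1 := (hx (n + 1)).1
    unfold cut pn
    ext1
    · exact (hx n).2
    · simp only [hl]
      split_ifs <;> first | rfl | (exfalso; omega)
    · simp only [hl]
      split_ifs <;> first | rfl | (exfalso; omega)
  · apply Subtype.ext
    obtain ⟨h1, h2, h3, h4, h5⟩ := mv_spec hσ (pn k x A o n) (hv n)
    have hl : T.len (pn k x A o n).q = n := (hx n).1
    have hl' : T.len (mv T k C σ (pn k x A o n)).q = n + 1 := by
      rw [h3.1, hl]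
    change pn k x A o (n + 1) = (σ ⟨pn k x A o n, hv n⟩).1
    rw [← h1]
    ext1
    · exact hq n hn
    · change (if n + 1 ≤ 2 * k then ∅ else A) = _
      split_ifs with h6
      · exact (h2.low (by omega)).symm
      · rcases Nat.eq_or_lt_of_le (Nat.le_of_lt_succ (not_le.1 h6)) with h7 | h7
        · rw [← h7] at hn ⊢
          exact (hA hn).symm
        · rw [h4 (by omega)]
          unfold pn
          simp only
          rw [if_neg (by omega)]
    · change (if n + 1 ≤ 2 * k + 1 then Opt.none else o) = _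
      split_ifs with h6
      · exact (h2.low' (by omega)).symm
      · rcases Nat.eq_or_lt_of_le (Nat.le_of_lt_succ (not_le.1 h6)) with h7 | h7
        · rw [← h7] at hn ⊢
          exact (ho hn).symm
        · rw [h5 (by omega)]
          unfold pn
          simp only
          rw [if_neg (by omega)]

/-! ### The forcing set -/

theorem hit_res {T : GT} {m : ℕ} {j : Bool} {A G : Set T.Q} {q : T.Q} (n : ℕ)
    (h : Hit T m j A G (T.res n q)) : Hit T m j A G q := by
  obtain ⟨i, h1, h2, h3⟩ := h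
  rw [T.len_res] at h2
  rw [T.res_res, min_eq_left (by omega)] at h3
  exact ⟨i, h1, by omega, h3⟩

theorem hit_child {T : GT} {m : ℕ} {j : Bool} {A G : Set T.Q} {q q' : T.Q} (hc : Child T q q')
    (h : Hit T m j A G q') : Hit T m j A G q ∨ Force T j A G q' := by
  obtain ⟨i, h1, h2, h3⟩ := h
  rcases Nat.lt_or_ge (T.len q) i with h4 | h4
  · right
    rw [T.res_self i q' (by rw [hc.1]; omega)] at h3
    exact h3
  · left
    refine ⟨i, h1, h4, ?_⟩
    rw [← hc.2, T.res_res, min_eq_left h4]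
    exact h3

theorem hit_self {T : GT} {m : ℕ} {j : Bool} {A G : Set T.Q} {q : T.Q} (hm : m ≤ T.len q)
    (h : Force T j A G q) : Hit T m j A G q :=
  ⟨T.len q, hm, le_rfl, by rw [T.res_self _ _ le_rfl]; exact h⟩

theorem hit_base {T : GT} {m : ℕ} {j : Bool} {A G : Set T.Q} {q : T.Q} (hm : T.len q = m)
    (h : Hit T m j A G q) : Force T j A G q := by
  obtain ⟨i, h1, h2, h3⟩ := h
  rw [T.res_self i q (by omega)] at h3
  exact h3

theorem hit_br {T : GT} {m : ℕ} {j : Bool} {A G : Set T.Q} {x : ℕ → T.Q} (hx : Branch T x) {n : ℕ} :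
    Hit T m j A G (x n) ↔ ∃ i, m ≤ i ∧ i ≤ n ∧ Force T j A G (x i) := by
  unfold Hit
  rw [(hx n).1]
  constructor
  · rintro ⟨i, h1, h2, h3⟩
    rw [br_res hx i n h2] at h3
    exact ⟨i, h1, h2, h3⟩
  · rintro ⟨i, h1, h2, h3⟩
    rw [← br_res hx i n h2] at h3
    exact ⟨i, h1, h2, h3⟩

theorem hitPt_br {T : GT} {m : ℕ} {j : Bool} {A G : Set T.Q} {x : ℕ → T.Q} (hx : Branch T x)
    {n0 n : ℕ} (hm : m ≤ n0) (hF : Force T j A G (x n0))
    (hmin : ∀ i, m ≤ i → i < n0 → ¬ Force T j A G (x i)) (hn : n0 ≤ n) :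
    hitPt T m j A G (x n) = x n0 := by
  unfold hitPt
  have e : {i | m ≤ i ∧ i ≤ T.len (x n) ∧ Force T j A G (T.res i (x n))} =
      {i | m ≤ i ∧ i ≤ n ∧ Force T j A G (x i)} := by
    ext i
    simp only [Set.mem_setOf_eq, (hx n).1]
    constructor
    · rintro ⟨h1, h2, h3⟩
      rw [br_res hx i n h2] at h3
      exact ⟨h1, h2, h3⟩
    · rintro ⟨h1, h2, h3⟩
      rw [← br_res hx i n h2] at h3
      exact ⟨h1, h2, h3⟩
  rw [e]
  have e2 : sInf {i | m ≤ i ∧ i ≤ n ∧ Force T j A G (x i)} = n0 := by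
    apply le_antisymm
    · exact Nat.sInf_le ⟨hm, hn, hF⟩
    · by_contra hlt
      rw [not_le] at hlt
      have hmem := Nat.sInf_mem (⟨n0, hm, hn, hF⟩ :
        {i | m ≤ i ∧ i ≤ n ∧ Force T j A G (x i)}.Nonempty)
      exact hmin _ hmem.1 hlt hmem.2.2
  rw [e2, br_res hx n0 n hn]

theorem reach_use (R : REACH_S) {T : GT} {m : ℕ} {j : Bool} {A G : Set T.Q} {x : ℕ → T.Q}
    (hx : Branch T x) {n0 : ℕ} (hm : m ≤ n0) (hF : Force T j A G (x n0))
    (hmin : ∀ i, m ≤ i → i < n0 → ¬ Force T j A G (x i))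
    (hc : ∀ n, n0 ≤ n → Turn j n → (∀ i, n0 ≤ i → i ≤ n → x i ∉ G) →
      x (n + 1) = rho T j A G (hitPt T m j A G (x n)) (x n)) :
    ∃ n, n0 ≤ n ∧ x n ∈ G ∧ ∀ i, n0 ≤ i → i < n → Turn j i → x (i + 1) ∈ A := by
  have hR : Reaches T j A G (x n0) (rho T j A G (x n0)) := by
    unfold rho
    rw [dif_pos (R T j A G (x n0) hF)]
    exact Classical.choose_spec (R T j A G (x n0) hF)
  have hl : T.len (x n0) = n0 := (hx n0).1
  have := hR.2 x hx (by rw [hl]) (by
    rw [hl]
    intro n hn ht hi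
    rw [hc n hn ht hi, hitPt_br hx hm hF hmin hn])
  rw [hl] at this
  exact this

theorem exists_min {P : ℕ → Prop} {m : ℕ} (h : ∃ n, m ≤ n ∧ P n) :
    ∃ n0, m ≤ n0 ∧ P n0 ∧ ∀ i, m ≤ i → i < n0 → ¬ P i := by
  classical
  refine ⟨Nat.find h, (Nat.find_spec h).1, (Nat.find_spec h).2, fun i h1 h2 h3 => ?_⟩
  exact Nat.find_min h h2 ⟨h1, h3⟩

/-! ### The quasi-strategies -/

theorem avoid_qi {T : GT} {k : ℕ} {U : Set T.Q} {x' : T.Q} (hl : T.len x' = 2 * k + 1)
    (hF : ¬ Force T true Set.univ U x') :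
    QI T (avoid T (2 * k + 1) true Set.univ Set.univ U x') x' := by
  constructor
  · exact ⟨trivial, hl.ge, T.res_self _ _ hl.le, fun h => hF (hit_base hl h)⟩
  · intro q hq
    rw [hl]
    exact ⟨hq.2.1, hq.2.2.1⟩
  · intro q hq n hn
    rw [hl] at hn
    refine ⟨trivial, ?_, ?_, fun h => hq.2.2.2 (hit_res n h)⟩
    · rw [T.len_res]
      exact le_min hn hq.2.1
    · rw [T.res_res, min_eq_left hn]
      exact hq.2.2.1
  · intro q hq ho q' hc
    have h1 : T.len x' ≤ T.len q ∧ T.res (T.len x') q = x' := by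
      rw [hl]
      exact ⟨hq.2.1, hq.2.2.1⟩
    have h2 := above_child h1 hc
    rw [hl] at h2
    refine ⟨trivial, h2.1, h2.2, fun h => ?_⟩
    rcases hit_child hc h with h3 | h3
    · exact hq.2.2.2 h3
    · exact hq.2.2.2 (hit_self hq.2.1 (Force.mine q q' ho hc trivial h3))
  · intro q hq he
    have h1 : T.len x' ≤ T.len q ∧ T.res (T.len x') q = x' := by
      rw [hl]
      exact ⟨hq.2.1, hq.2.2.1⟩
    by_contra hno
    push Not at hno
    apply hq.2.2.2
    refine hit_self hq.2.1 (Force.yours q ?_ fun q' hc => ?_)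
    · unfold Turn
      rw [he]
      decide
    · have h2 := above_child h1 hc
      rw [hl] at h2
      by_contra h3
      refine hno q' hc ⟨trivial, h2.1, h2.2, fun h => ?_⟩
      rcases hit_child hc h with h4 | h4
      · exact hq.2.2.2 h4
      · exact h3 h4

theorem avoid_qii {T : GT} {k : ℕ} {C A : Set T.Q} {x' y : T.Q} (hA : QI T A x')
    (hl : T.len x' = 2 * k + 1) (hy : y ∈ A) (hly : T.len y = 2 * k + 2)
    (hF : ¬ Force T false A (TX T C)ᶜ y) :
    QII T C A (avoid T (2 * k + 2) false A A (TX T C)ᶜ y) y := by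
  constructor
  · exact ⟨hy, hly.ge, T.res_self _ _ hly.le, fun h => hF (hit_base hly h)⟩
  · intro q hq
    refine ⟨hq.1, ?_⟩
    by_contra h
    exact hq.2.2.2 (hit_self hq.2.1 (Force.base q h))
  · intro q hq
    rw [hly]
    exact ⟨hq.2.1, hq.2.2.1⟩
  · intro q hq n hn
    rw [hly] at hn
    refine ⟨hA.res q hq.1 n (by omega), ?_, ?_, fun h => hq.2.2.2 (hit_res n h)⟩
    · rw [T.len_res]
      exact le_min hn hq.2.1
    · rw [T.res_res, min_eq_left hn]
      exact hq.2.2.1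
  · intro q hq he q' hc hq'
    have h1 : T.len y ≤ T.len q ∧ T.res (T.len y) q = y := by
      rw [hly]
      exact ⟨hq.2.1, hq.2.2.1⟩
    have h2 := above_child h1 hc
    rw [hly] at h2
    refine ⟨hq', h2.1, h2.2, fun h => ?_⟩
    rcases hit_child hc h with h3 | h3
    · exact hq.2.2.2 h3
    · exact hq.2.2.2 (hit_self hq.2.1 (Force.mine q q' he hc hq' h3))
  · intro q hq ho
    have h1 : T.len y ≤ T.len q ∧ T.res (T.len y) q = y := by
      rw [hly]
      exact ⟨hq.2.1, hq.2.2.1⟩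
    by_contra hno
    push Not at hno
    apply hq.2.2.2
    refine hit_self hq.2.1 (Force.yours q ?_ fun q' hc => ?_)
    · unfold Turn
      rw [ho]
      decide
    · have h2 := above_child h1 hc
      rw [hly] at h2
      by_contra h3
      refine hno q' hc ⟨hA.odd q hq.1 ho q' hc, h2.1, h2.2, fun h => ?_⟩
      rcases hit_child hc h with h4 | h4
      · exact hq.2.2.2 h4
      · exact h3 h4

end Pool.Agent.Lib.MP_75b31c_lc.D40.H86
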