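import Pool.Agent.Lib.MP_75b31c_lc.D40.Iface

set_option autoImplicit false

/-!
# LIMC: the covering of `T 0` by the inverse limit
-/

namespace Pool.Agent.Lib.MP_75b31c_lc.D40.H86

open Pool.Agent.Lib.MP_75b31c_lc.D40

section
variable {D : Sys} {S : GT} {r : ∀ n, Mor S (D.T n)} (L : IsLim D S r)

open Classical in
/-- The base strategies `s_J`. -/
noncomputable def sJ (J : ℕ) (σ : S.Q → S.Q) (p : (D.T J).Q) : (D.T J).Q :=
  if h : ∃ q, (r J).f q = p ∧ (D.T J).len p < 2 * (D.k + J) then (r J).f (σ (Classical.choose h))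
  else dflt (D.T J) p

/-- Strategies on the levels. -/
noncomputable def BB (r : ∀ n, Mor S (D.T n)) (b : Bool) (σ : S.Q → S.Q) :
    ∀ (i j : ℕ), (D.T j).Q → (D.T j).Q
  | 0, j => sJ (r := r) j σ
  | i + 1, j => (D.c j).φ b (BB r b σ i (j + 1))

include L

theorem sJ_eq (J : ℕ) (σ : S.Q → S.Q) (q : S.Q) (hq : S.len q < 2 * (D.k + J)) :
    sJ (r := r) J σ ((r J).f q) = (r J).f (σ q) := by
  have h : ∃ q', (r J).f q' = (r J).f q ∧ (D.T J).len ((r J).f q) < 2 * (D.k + J) :=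
    ⟨q, rfl, by rw [(r J).len_f]; exact hq⟩
  unfold sJ
  rw [dif_pos h]
  have h1 := (Classical.choose_spec h).1
  have h2 : S.len (Classical.choose h) = S.len q := by
    rw [← (r J).len_f, h1, (r J).len_f]
  rw [L.inj J _ q (by omega) h1]

theorem sJ_strat (J : ℕ) (σ : S.Q → S.Q) (hσ : IsStrat S σ) : IsStrat (D.T J) (sJ (r := r) J σ) := by
  intro p
  by_cases h : (D.T J).len p < 2 * (D.k + J)
  · obtain ⟨q, rfl⟩ := L.surj J p h.le
    rw [(r J).len_f] at h
    rw [sJ_eq L J σ q h]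
    constructor
    · rw [(r J).len_f, (r J).len_f]
      exact (hσ q).1
    · rw [(r J).len_f, (r J).res_f, (hσ q).2]
  · unfold sJ
    rw [dif_neg (fun h' => h h'.choose_spec.2)]
    exact dflt_spec _ _

theorem BB_strat (b : Bool) (σ : S.Q → S.Q) (hσ : IsStrat S σ) (i : ℕ) :
    ∀ j, IsStrat (D.T j) (BB r b σ i j) := by
  induction i with
  | zero => exact fun j => sJ_strat L j σ hσ
  | succ i ih => exact fun j => (D.c j).strat b _ (ih (j + 1))

theorem BB_stab (b : Bool) (σ : S.Q → S.Q) (hσ : IsStrat S σ) (i : ℕ) :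
    ∀ j (q : (D.T j).Q), (D.T j).len q < 2 * (D.k + (j + i)) → Turn b ((D.T j).len q) →
      BB r b σ (i + 1) j q = BB r b σ i j q := by
  induction i with
  | zero =>
    intro j q hq ht
    obtain ⟨q', rfl⟩ := L.surj j q (by omega)
    rw [(r j).len_f] at hq ht
    change (D.c j).φ b (sJ (r := r) (j + 1) σ) _ = sJ (r := r) j σ _
    rw [sJ_eq L j σ q' (by omega), ← L.comm j q', ← L.comm j (σ q'),
      ← sJ_eq L (j + 1) σ q' (by omega)]
    refine (D.fix j).2.2 b _ _ (sJ_strat L (j + 1) σ hσ) ?_ ?_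
    · rw [(r (j + 1)).len_f]
      omega
    · rw [(r (j + 1)).len_f]
      exact ht
  | succ i ih =>
    intro j q hq ht
    change (D.c j).φ b (BB r b σ (i + 1) (j + 1)) q = (D.c j).φ b (BB r b σ i (j + 1)) q
    refine (D.c j).loc b _ _ ((D.T j).len q + 1) (BB_strat L b σ hσ _ _) (BB_strat L b σ hσ _ _) ?_ q
      (Nat.lt_succ_self _) ht
    intro q' hq' ht'
    exact ih (j + 1) q' (by omega) ht'

theorem BB_stab' (b : Bool) (σ : S.Q → S.Q) (hσ : IsStrat S σ) (i : ℕ) (j : ℕ) (q : (D.T j).Q)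
    (hq : (D.T j).len q < 2 * (D.k + (j + i))) (ht : Turn b ((D.T j).len q)) (d : ℕ) :
    BB r b σ (i + d) j q = BB r b σ i j q := by
  induction d with
  | zero => rfl
  | succ d ih =>
    rw [← ih]
    exact BB_stab L b σ hσ (i + d) j q (by omega) ht

omit L in
/-- The strategy on level `j`. -/
noncomputable def sig (r : ∀ n, Mor S (D.T n)) (b : Bool) (σ : S.Q → S.Q) (j : ℕ) (q : (D.T j).Q) :
    (D.T j).Q :=
  BB r b σ ((D.T j).len q + 1) j q

theorem sig_strat (b : Bool) (σ : S.Q → S.Q) (hσ : IsStrat S σ) (j : ℕ) :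
    IsStrat (D.T j) (sig r b σ j) := fun q => BB_strat L b σ hσ _ j q

theorem sig_eq_B (b : Bool) (σ : S.Q → S.Q) (hσ : IsStrat S σ) (i j : ℕ) (q : (D.T j).Q)
    (hq : (D.T j).len q < 2 * (D.k + (j + i))) (ht : Turn b ((D.T j).len q)) :
    sig r b σ j q = BB r b σ i j q := by
  unfold sig
  rcases le_total i ((D.T j).len q + 1) with h | h
  · obtain ⟨d, hd⟩ := Nat.exists_eq_add_of_le h
    rw [hd]
    exact BB_stab' L b σ hσ i j q hq ht d
  · obtain ⟨d, hd⟩ := Nat.exists_eq_add_of_le h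
    rw [hd]
    exact (BB_stab' L b σ hσ _ j q (by omega) ht d).symm

theorem sig_low (b : Bool) (σ : S.Q → S.Q) (hσ : IsStrat S σ) (j : ℕ) (q : S.Q)
    (hq : S.len q < 2 * (D.k + j)) (ht : Turn b (S.len q)) :
    sig r b σ j ((r j).f q) = (r j).f (σ q) := by
  rw [sig_eq_B L b σ hσ 0 j _ (by rw [(r j).len_f]; omega) (by rw [(r j).len_f]; exact ht)]
  exact sJ_eq L j σ q hq

theorem sig_succ (b : Bool) (σ : S.Q → S.Q) (hσ : IsStrat S σ) (j : ℕ) (q : (D.T j).Q)
    (ht : Turn b ((D.T j).len q)) :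
    sig r b σ j q = (D.c j).φ b (sig r b σ (j + 1)) q := by
  rw [sig_eq_B L b σ hσ ((D.T j).len q + 1 + 1) j q (by omega) ht]
  change (D.c j).φ b (BB r b σ ((D.T j).len q + 1) (j + 1)) q = _
  refine (D.c j).loc b _ _ ((D.T j).len q + 1) (BB_strat L b σ hσ _ _) (sig_strat L b σ hσ _) ?_ q
      (Nat.lt_succ_self _) ht
  intro q' hq' ht'
  exact (sig_eq_B L b σ hσ _ _ q' (by omega) ht').symm

theorem BB_loc (b : Bool) (σ σ' : S.Q → S.Q) (m : ℕ) (hσ : IsStrat S σ) (hσ' : IsStrat S σ')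
    (h : ∀ q, S.len q < m → Turn b (S.len q) → σ q = σ' q) (i : ℕ) :
    ∀ j (q : (D.T j).Q), (D.T j).len q < m → Turn b ((D.T j).len q) →
      BB r b σ i j q = BB r b σ' i j q := by
  induction i with
  | zero =>
    intro j q hq ht
    change sJ (r := r) j σ q = sJ (r := r) j σ' q
    unfold sJ
    split_ifs with hh
    · have h1 := (Classical.choose_spec hh).1
      have h2 : S.len (Classical.choose hh) = (D.T j).len q := by
        rw [← (r j).len_f, h1]
      rw [h _ (by omega) (by rw [h2]; exact ht)]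
    · rfl
  | succ i ih =>
    intro j q hq ht
    exact (D.c j).loc b _ _ m (BB_strat L b σ hσ _ _) (BB_strat L b σ' hσ' _ _) (ih (j + 1)) q hq ht

/-- Lifting. -/
theorem lim_lift (b : Bool) (σ : S.Q → S.Q) (hσ : IsStrat S σ) (x : ℕ → (D.T 0).Q)
    (hx : Branch (D.T 0) x) (hc : Cons (D.T 0) b (sig r b σ 0) x) :
    ∃ y, Branch S y ∧ Cons S b σ y ∧ ∀ n, (r 0).f (y n) = x n := by
  classical
  have step : ∀ (j : ℕ) (z : {x : ℕ → (D.T j).Q // Branch (D.T j) x ∧ Cons (D.T j) b (sig r b σ j) x}),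
      ∃ w : {x : ℕ → (D.T (j + 1)).Q // Branch (D.T (j + 1)) x ∧
        Cons (D.T (j + 1)) b (sig r b σ (j + 1)) x}, ∀ n, (D.c j).p.f (w.1 n) = z.1 n := by
    intro j z
    obtain ⟨w, h1, h2, h3⟩ := (D.c j).lift b (sig r b σ (j + 1)) (sig_strat L b σ hσ (j + 1)) z.1 z.2.1
      (fun n hn => by
        rw [z.2.2 n hn]
        exact sig_succ L b σ hσ j (z.1 n) (by rw [(z.2.1 n).1]; exact hn))
    exact ⟨⟨w, h1, h2⟩, h3⟩
  choose g hg using step
  let X : ∀ j, {x : ℕ → (D.T j).Q // Branch (D.T j) x ∧ Cons (D.T j) b (sig r b σ j) x} :=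
    fun j => Nat.rec (motive := fun j => {x : ℕ → (D.T j).Q // Branch (D.T j) x ∧
      Cons (D.T j) b (sig r b σ j) x}) ⟨x, hx, hc⟩ (fun j z => g j z) j
  have hX : ∀ j n, (D.c j).p.f ((X (j + 1)).1 n) = (X j).1 n := fun j n => hg j (X j) n
  have hy : ∀ n, ∃ q, ∀ j, (r j).f q = (X j).1 n := fun n => L.glue (fun j => (X j).1 n) (fun j => hX j n)
  choose y hy using hy
  have hlen : ∀ n, S.len (y n) = n := by
    intro n
    rw [← (r 0).len_f, hy n 0]
    exact ((X 0).2.1 n).1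
  refine ⟨y, fun n => ⟨hlen n, ?_⟩, fun n hn => ?_, fun n => hy n 0⟩
  · refine L.inj n _ _ ?_ ?_
    · rw [S.len_res]
      exact le_trans (min_le_left _ _) (by omega)
    · rw [← (r n).res_f, hy (n + 1) n, hy n n]
      exact ((X n).2.1 n).2
  · refine L.inj (n + 1) _ _ ?_ ?_
    · rw [hlen]
      omega
    · rw [hy (n + 1) (n + 1), (X (n + 1)).2.2 n hn, ← hy n (n + 1)]
      exact sig_low L b σ hσ (n + 1) (y n) (by rw [hlen]; omega) (by rw [hlen]; exact hn)

end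

theorem limc : LIMC_S := by
  intro D S r L
  refine ⟨⟨r 0, fun b σ => sig r b σ 0, fun b σ hσ => sig_strat L b σ hσ 0,
    fun b σ hσ x hx hc => lim_lift L b σ hσ x hx hc, ?_⟩, ⟨?_, ?_, ?_⟩, fun q => rfl⟩
  · intro b σ σ' m hσ hσ' h q hq ht
    exact BB_loc L b σ σ' m hσ hσ' h _ 0 q hq ht
  · intro q q' hq _ h
    exact L.inj 0 q q' hq h
  · intro p hp
    exact L.surj 0 p hp
  · intro b σ q hσ hq ht
    exact sig_low L b σ hσ 0 q hq ht

end Pool.Agent.Lib.MP_75b31c_lc.D40.H86
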