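import Pool.Agent.Lib.MP_75b31c_lc.D40.Iface

set_option autoImplicit false

/-!
# THR: the tree of threads of an inverse system of coverings
-/

namespace Pool.Agent.Lib.MP_75b31c_lc.D40.H86

open Pool.Agent.Lib.MP_75b31c_lc.D40

/-- General lemma on inverse systems: elements extend to threads. -/
theorem exists_thread (J : ℕ) : ∀ (X : ℕ → Type) (π : ∀ n, X (n + 1) → X n) (P : ∀ n, X n → Prop),
    (∀ n, J ≤ n → ∀ x : X n, P n x → ∃ y : X (n + 1), π n y = x ∧ P (n + 1) y) →
    ∀ p : X J, P J p → ∃ f : ∀ n, X n, f J = p ∧ ∀ n, π n (f (n + 1)) = f n := by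
  induction J with
  | zero =>
    intro X π P h p hp
    classical
    let F : ∀ n, {x : X n // P n x} := fun n => Nat.rec (motive := fun n => {x : X n // P n x})
      ⟨p, hp⟩ (fun n x => ⟨Classical.choose (h n (Nat.zero_le n) x.1 x.2),
        (Classical.choose_spec (h n (Nat.zero_le n) x.1 x.2)).2⟩) n
    refine ⟨fun n => (F n).1, rfl, fun n => ?_⟩
    exact (Classical.choose_spec (h n (Nat.zero_le n) (F n).1 (F n).2)).1
  | succ J ih =>
    intro X π P h p hp
    obtain ⟨f, hf, hf'⟩ := ih (fun n => X (n + 1)) (fun n => π (n + 1)) (fun n => P (n + 1))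
      (fun n hn x hx => h (n + 1) (Nat.succ_le_succ hn) x hx) p hp
    let g : ∀ n, X n := fun n => Nat.casesOn n (π 0 (f 0)) (fun n => f n)
    refine ⟨g, hf, fun n => ?_⟩
    cases n with
    | zero => rfl
    | succ n => exact hf' n

variable (D : Sys)

/-- Threads. -/
def Thr : Type := {f : ∀ n, (D.T n).Q // ∀ n, (D.c n).p.f (f (n + 1)) = f n}

variable {D}

theorem thr_len (f : Thr D) (n : ℕ) : (D.T n).len (f.1 n) = (D.T 0).len (f.1 0) := by
  induction n with
  | zero => rfl
  | succ n ih => rw [← ih, ← f.2 n, (D.c n).p.len_f]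

theorem thr_inj (J : ℕ) (f g : Thr D) (h : (D.T 0).len (f.1 0) ≤ 2 * (D.k + J))
    (h' : f.1 J = g.1 J) : f = g := by
  have hl : (D.T 0).len (g.1 0) = (D.T 0).len (f.1 0) := by
    rw [← thr_len f J, ← thr_len g J, h']
  have hup : ∀ i, f.1 (J + i) = g.1 (J + i) := by
    intro i
    induction i with
    | zero => exact h'
    | succ i ih =>
      refine (D.fix (J + i)).1 _ _ ?_ ?_ ?_
      · exact le_trans (le_of_eq (thr_len f (J + i + 1))) (by omega)
      · exact le_trans (le_of_eq (thr_len g (J + i + 1))) (by omega)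
      · exact (f.2 (J + i)).trans (ih.trans (g.2 (J + i)).symm)
  have hdown : ∀ i n, n + i = J → f.1 n = g.1 n := by
    intro i
    induction i with
    | zero =>
      intro n hn
      obtain rfl : n = J := by omega
      exact h'
    | succ i ih =>
      intro n hn
      rw [← f.2 n, ← g.2 n, ih (n + 1) (by omega)]
  apply Subtype.ext
  funext n
  rcases le_total n J with hn | hn
  · exact hdown (J - n) n (by omega)
  · obtain ⟨i, rfl⟩ := Nat.exists_eq_add_of_le hn
    exact hup i

theorem thr_surj (J : ℕ) (p : (D.T J).Q) (hp : (D.T J).len p ≤ 2 * (D.k + J)) :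
    ∃ f : Thr D, f.1 J = p := by
  obtain ⟨f, hf, hf'⟩ := exists_thread J (fun n => (D.T n).Q) (fun n => (D.c n).p.f)
    (fun n q => (D.T n).len q ≤ 2 * (D.k + J))
    (fun n hn q hq => by
      obtain ⟨q', hq'⟩ := (D.fix n).2.1 q (le_trans hq (by omega))
      refine ⟨q', hq', ?_⟩
      rw [← (D.c n).p.len_f, hq']
      exact hq) p hp
  exact ⟨⟨f, hf'⟩, hf⟩

/-- Restriction of threads. -/
def thrRes (n : ℕ) (f : Thr D) : Thr D :=
  ⟨fun i => (D.T i).res n (f.1 i), fun i => by rw [← (D.c i).p.res_f, f.2 i]⟩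

variable (D)

/-- The tree of threads. -/
def thrT : GT where
  Q := Thr D
  len f := (D.T 0).len (f.1 0)
  res := thrRes
  len_res n f := (D.T 0).len_res n (f.1 0)
  res_res m n f := Subtype.ext (funext fun i => (D.T i).res_res m n (f.1 i))
  res_self n f h := Subtype.ext (funext fun i => (D.T i).res_self n (f.1 i) (by
    rw [thr_len f i]; exact h))
  root_uniq f g hf hg := Subtype.ext (funext fun i => (D.T i).root_uniq _ _
    (by rw [thr_len f i]; exact hf) (by rw [thr_len g i]; exact hg))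
  root_ex := by
    classical
    have h : ∀ i, ∃ q : (D.T i).Q, (D.T i).len q = 0 := fun i => (D.T i).root_ex
    choose f hf using h
    refine ⟨⟨f, fun i => ?_⟩, hf 0⟩
    exact (D.T i).root_uniq _ _ (by rw [(D.c i).p.len_f, hf]) (hf i)
  ext f := by
    obtain ⟨L, hL⟩ : ∃ L, L = (D.T 0).len (f.1 0) := ⟨_, rfl⟩
    obtain ⟨q, hq1, hq2⟩ := (D.T (L + 1)).ext (f.1 (L + 1))
    have hfl : (D.T (L + 1)).len (f.1 (L + 1)) = L := by rw [thr_len f (L + 1), hL]
    rw [hfl] at hq1 hq2
    obtain ⟨g, hg⟩ := thr_surj (L + 1) q (by omega)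
    have hgl : (D.T 0).len (g.1 0) = L + 1 := by
      rw [← thr_len g (L + 1), hg, hq1]
    rw [← hL]
    refine ⟨g, hgl, ?_⟩
    refine thr_inj (L + 1) _ _ ?_ ?_
    · change (D.T 0).len ((D.T 0).res _ (g.1 0)) ≤ _
      rw [(D.T 0).len_res]
      exact le_trans (min_le_left _ _) (by omega)
    · change (D.T _).res _ (g.1 _) = _
      rw [hg, hq2]

theorem thr : THR_S := by
  intro D
  refine ⟨thrT D, fun n => ⟨fun f => f.1 n, fun f => thr_len f n, fun m f => rfl⟩, ?_⟩
  constructor
  · intro n f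
    exact f.2 n
  · intro J f g h h'
    exact thr_inj J f g h h'
  · intro J p hp
    exact thr_surj J p hp
  · intro y hy
    exact ⟨⟨y, hy⟩, fun n => rfl⟩

end Pool.Agent.Lib.MP_75b31c_lc.D40.H86
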